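import Pool.Agent.Lib.MP_0d9be2_nt.H39.FinalC

/-!
If no power of `L(E/K, s)` has a meromorphic continuation, this already happens over arbitrarily
large number fields fixed by ONE automorphism of the algebraic closure, with local control at all
places.
-/

namespace Pool.Agent.Results.MP_0d9be2_nt.OneAutomorphism

open scoped NumberField
open IsDedekindDomain NumberField

/-! ### The `L`-series -/

section lseries

variable {K : Type} [Field K] [NumberField K]

/-- The number of affine points of the reduction of `W` modulo the prime `v`. -/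
noncomputable def affPts (W : WeierstrassCurve (𝓞 K)) (v : HeightOneSpectrum (𝓞 K)) : ℕ :=
  Nat.card {xy : (𝓞 K ⧸ v.asIdeal) × (𝓞 K ⧸ v.asIdeal) //
    (W.map (Ideal.Quotient.mk v.asIdeal)).toAffine.Equation xy.1 xy.2}

open Classical in
/-- The Euler factor of the integral Weierstrass equation `W` at the prime `v`. -/
noncomputable def factor (W : WeierstrassCurve (𝓞 K)) (v : HeightOneSpectrum (𝓞 K)) (s : ℂ) : ℂ :=
  (1 - ((Ideal.absNorm v.asIdeal : ℂ) - (affPts W v : ℂ)) * (Ideal.absNorm v.asIdeal : ℂ) ^ (-s)
    + (if W.Δ ∈ v.asIdeal then 0 else (Ideal.absNorm v.asIdeal : ℂ))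
      * (Ideal.absNorm v.asIdeal : ℂ) ^ (-2 * s))⁻¹

/-- `W` is an integral Weierstrass model of `E`. -/
def IsModel (E : WeierstrassCurve K) (W : WeierstrassCurve (𝓞 K)) : Prop :=
  ∃ C : WeierstrassCurve.VariableChange K, C • W.map (algebraMap (𝓞 K) K) = E

/-- `W` is an integral Weierstrass model of `E` which is minimal at `v`. -/
def IsMinimalAt (E : WeierstrassCurve K) (W : WeierstrassCurve (𝓞 K))
    (v : HeightOneSpectrum (𝓞 K)) : Prop :=
  IsModel E W ∧ ∀ W' : WeierstrassCurve (𝓞 K), IsModel E W' →
    ∀ n : ℕ, W.Δ ∈ v.asIdeal ^ n → W'.Δ ∈ v.asIdeal ^ n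

/-- The `k`-th power of `L(E/K, s)`, the Euler product for `Re s > 2`, has a meromorphic
continuation to `ℂ`. -/
def PowerContinues (E : WeierstrassCurve K) (k : ℕ) : Prop :=
  ∀ W : HeightOneSpectrum (𝓞 K) → WeierstrassCurve (𝓞 K), (∀ v, IsMinimalAt E (W v) v) →
    ∃ f : ℂ → ℂ, MeromorphicOn f Set.univ ∧
      ∀ s : ℂ, 2 < s.re → f s = (∏' v : HeightOneSpectrum (𝓞 K), factor (W v) v s) ^ k

/-- `E` has good or multiplicative reduction at `v`: there is an integral model whose discriminant
or whose `c₄` is a unit at `v`. -/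
def SemistableAt (E : WeierstrassCurve K) (v : HeightOneSpectrum (𝓞 K)) : Prop :=
  ∃ W : WeierstrassCurve (𝓞 K), IsModel E W ∧ (W.Δ ∉ v.asIdeal ∨ W.c₄ ∉ v.asIdeal)

end lseries

/-! ### Places that do not split -/

section split

/-- `L` is a compositum of the extensions `F` and `M` of `K`. -/
def IsCompositum (K M F L : Type) [Field K] [Field M] [Field F] [Field L] [Algebra K M]
    [Algebra K F] [Algebra K L] [Algebra M L] [Algebra F L] : Prop :=
  IsScalarTower K M L ∧ IsScalarTower K F L ∧ Algebra.adjoin F (Set.range (algebraMap M L)) = ⊤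

/-- The finite place `w` of `F` splits completely in the compositum `F M`. -/
def SplitsAt (K M F : Type) [Field K] [Field M] [Field F] [Algebra K M] [Algebra K F]
    (w : HeightOneSpectrum (𝓞 F)) : Prop :=
  ∀ (L : Type) [Field L] [NumberField L] [Algebra K L] [Algebra M L] [Algebra F L],
    IsCompositum K M F L → ∀ W : HeightOneSpectrum (𝓞 L), W.asIdeal.LiesOver w.asIdeal →
      W.asIdeal.ramificationIdx (𝓞 F) = 1 ∧ W.asIdeal.inertiaDeg (𝓞 F) = 1

/-- The infinite place `w` of `F` splits completely in the compositum `F M`. -/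
def SplitsAtInf (K M F : Type) [Field K] [Field M] [Field F] [Algebra K M] [Algebra K F]
    (w : InfinitePlace F) : Prop :=
  ∀ (L : Type) [Field L] [NumberField L] [Algebra K L] [Algebra M L] [Algebra F L],
    IsCompositum K M F L → ∀ W : InfinitePlace L, W.comap (algebraMap F L) = w →
      W.IsUnramified F

/-- The total local degree of the places of `F` over the finite place `v` of `K` that do not split
completely in `F M`. -/
noncomputable def nonsplit (K M F : Type) [Field K] [NumberField K] [Field M] [Field F]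
    [NumberField F] [Algebra K M] [Algebra K F] (v : HeightOneSpectrum (𝓞 K)) : ℕ :=
  ∑ᶠ w : {w : HeightOneSpectrum (𝓞 F) // w.asIdeal.LiesOver v.asIdeal ∧ ¬ SplitsAt K M F w},
    w.1.asIdeal.ramificationIdx (𝓞 K) * w.1.asIdeal.inertiaDeg (𝓞 K)

/-- The number of the places of `F` over the infinite place `v` of `K` that do not split
completely in `F M` (they are real). -/
noncomputable def nonsplitInf (K M F : Type) [Field K] [Field M] [Field F]
    [Algebra K M] [Algebra K F] (v : InfinitePlace K) : ℕ :=
  Nat.card {w : InfinitePlace F // w.comap (algebraMap K F) = v ∧ ¬ SplitsAtInf K M F w}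

end split

/-! ### One automorphism -/

section groups

variable {K : Type} [Field K]

/-- The field `F` is fixed by `σ` elementwise. -/
def FixedBy (σ : Gal(AlgebraicClosure K/K)) (F : IntermediateField K (AlgebraicClosure K)) :
    Prop := ∀ x ∈ F, σ x = x

/-- `τ` lies in the closure of the group generated by `σ`: it fixes every element fixed by `σ`. -/
def InClosure (σ τ : Gal(AlgebraicClosure K/K)) : Prop := ∀ x, σ x = x → τ x = x

/-- `Gal(M F / F)`, as the group of the restrictions to `M` of the automorphisms of the algebraic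
closure of `K` which fix `F`. -/
noncomputable def relGal (M F : IntermediateField K (AlgebraicClosure K)) [Normal K M] :
    Subgroup Gal(M/K) :=
  F.fixingSubgroup.map (AlgEquiv.restrictNormalHom M)

/-- The absolute value `v₀` is nontrivial and the prime `w` of `F` lies over the place of the
subfield `F₁` below `v₀`. -/
def Over (v₀ : AbsoluteValue (AlgebraicClosure K) ℝ)
    (F₁ F : IntermediateField K (AlgebraicClosure K)) (w : HeightOneSpectrum (𝓞 F)) : Prop :=
  v₀.IsNontrivial ∧ ∀ (x : 𝓞 F₁) (y : 𝓞 F), ((y : F) : AlgebraicClosure K) = (x : F₁) →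
    (y ∈ w.asIdeal ↔ v₀ ((x : F₁) : AlgebraicClosure K) < 1)

/-- The absolute value `v₀` is nontrivial and the infinite place `w` of `F` lies over the place of
the subfield `F₁` below `v₀`. -/
def OverInf (v₀ : AbsoluteValue (AlgebraicClosure K) ℝ)
    (F₁ F : IntermediateField K (AlgebraicClosure K)) (w : InfinitePlace F) : Prop :=
  v₀.IsNontrivial ∧ ∀ (x : F₁) (y : F), (y : AlgebraicClosure K) = x →
    (w y < 1 ↔ v₀ (x : AlgebraicClosure K) < 1)

theorem over_of_below [NumberField K] {v₀ : AbsoluteValue (AlgebraicClosure K) ℝ}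
    {F₁ F : IntermediateField K (AlgebraicClosure K)} [NumberField F]
    {w : HeightOneSpectrum (𝓞 F)} (h : MP_0d9be2.H39.Below v₀ F₁ F w) : Over v₀ F₁ F w := by
  refine ⟨⟨((Ideal.absNorm w.asIdeal : ℕ) : AlgebraicClosure K), ?_, ?_⟩, h⟩
  · rw [Nat.cast_ne_zero]
    exact Ideal.absNorm_eq_zero_iff.not.2 w.ne_bot
  · have h1 := (h ((Ideal.absNorm w.asIdeal : ℕ) : 𝓞 F₁) ((Ideal.absNorm w.asIdeal : ℕ) : 𝓞 F)
      (by push_cast; rfl)).1 (Ideal.absNorm_mem w.asIdeal)
    push_cast at h1
    exact h1.ne

theorem overInf_of_below [NumberField K] {v₀ : AbsoluteValue (AlgebraicClosure K) ℝ}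
    {F₁ F : IntermediateField K (AlgebraicClosure K)}
    {w : InfinitePlace F} (h : MP_0d9be2.H39.BelowInf v₀ F₁ F w) : OverInf v₀ F₁ F w := by
  refine ⟨⟨((2 : F₁)⁻¹ : F₁), ?_, ?_⟩, h⟩
  · push_cast
    exact inv_ne_zero two_ne_zero
  · refine ((h (2 : F₁)⁻¹ (2 : F)⁻¹ (by push_cast; rfl)).1 ?_).ne
    rw [← InfinitePlace.norm_embedding_eq, map_inv₀, map_ofNat, norm_inv]
    norm_num

end groups

theorem nonsplit_eq (K M F : Type) [Field K] [NumberField K] [Field M] [Field F]
    [NumberField F] [Algebra K M] [Algebra K F] (v : HeightOneSpectrum (𝓞 K)) :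
    nonsplit K M F v = MP_0d9be2.badDeg K M F v := by
  classical
  unfold nonsplit MP_0d9be2.badDeg
  have h1 := finsum_mem_coe_finset
    (fun w : HeightOneSpectrum (𝓞 F) =>
      w.asIdeal.ramificationIdx (𝓞 K) * w.asIdeal.inertiaDeg (𝓞 K))
    ((MP_0d9be2.H15.fib F v).filter (fun w => ¬ MP_0d9be2.SplitsAt K M F w))
  have h2 : ((MP_0d9be2.H15.fib F v).filter (fun w => ¬ MP_0d9be2.SplitsAt K M F w) :
      Set (HeightOneSpectrum (𝓞 F))) =
      {w | w.asIdeal.LiesOver v.asIdeal ∧ ¬ SplitsAt K M F w} := by
    ext w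
    rw [Finset.coe_filter]
    change w ∈ MP_0d9be2.H15.fib F v ∧ _ ↔ _
    rw [MP_0d9be2.H15.mem_fib]
    rfl
  rw [h2] at h1
  exact (finsum_set_coe_eq_finsum_mem
    (f := fun w : HeightOneSpectrum (𝓞 F) =>
      w.asIdeal.ramificationIdx (𝓞 K) * w.asIdeal.inertiaDeg (𝓞 K))
    {w | w.asIdeal.LiesOver v.asIdeal ∧ ¬ SplitsAt K M F w}).trans h1

/-- Let `E` be an elliptic curve over a number field `K` such that no power `L(E/K, s)^k`, `k ≥ 1`,
has a meromorphic continuation. Then there are an automorphism `σ` of the algebraic closure of `K`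
over `K` and an absolute value `v₀` of the algebraic closure, possibly trivial, preserved by `σ`,
such that, with `D` the closure of the group generated by `σ`:

* no element of `D` except `1` preserves a nontrivial absolute value that is not equivalent
  to `v₀`;
* every number field fixed by `σ` is contained in a number field `F'` fixed by `σ` such that no
  power of `L(E/F', s)` has a meromorphic continuation;
* (minimality) if `τ ∈ D` does not generate `D` topologically, there is a number field `F₁` fixed
  by `τ` such that for every number field `F ⊇ F₁` fixed by `τ` some power of `L(E/F, s)` has a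
  meromorphic continuation;
* for every finite Galois extension `M/K`, every `m ≥ 1`, every prime `v` of `K` and every number
  field `F₁` fixed by `σ`, all sufficiently large number fields `F` fixed by `σ` satisfy:
  `Gal(M F / F)` is generated by `σ`; `m` divides `[F : ℚ]`; for every place `u` of `K` the places
  of `F` over `u` that do not split completely in `M F` have total local degree at most
  `[F : K] / m`; the primes of `F` over `v` that do not split completely in `M F`, the primes at
  which `E` is not semistable over `F`, and the real places of `F` all lie over the place of `F₁`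
  below `v₀` (if `v₀` is trivial, there are none). -/
theorem result (K : Type) [Field K] [NumberField K] (E : WeierstrassCurve K) [E.IsElliptic]
    (hE : ∀ k : ℕ, 0 < k → ¬ PowerContinues E k) :
    ∃ (σ : Gal(AlgebraicClosure K/K)) (v₀ : AbsoluteValue (AlgebraicClosure K) ℝ),
      (∀ x, v₀ (σ x) = v₀ x) ∧
      (∀ w : AbsoluteValue (AlgebraicClosure K) ℝ, w.IsNontrivial → ¬ v₀.IsEquiv w →
        ∀ τ : Gal(AlgebraicClosure K/K), InClosure σ τ → (∀ x, w (τ x) = w x) → τ = 1) ∧
      (∀ F : IntermediateField K (AlgebraicClosure K), FiniteDimensional K F → FixedBy σ F →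
        ∃ (F' : IntermediateField K (AlgebraicClosure K)) (_ : NumberField F'),
          F ≤ F' ∧ FixedBy σ F' ∧
            ∀ k : ℕ, 0 < k → ¬ PowerContinues (E.map (algebraMap K F')) k) ∧
      (∀ τ : Gal(AlgebraicClosure K/K), InClosure σ τ → ¬ InClosure τ σ →
        ∃ F₁ : IntermediateField K (AlgebraicClosure K), FiniteDimensional K F₁ ∧
          FixedBy τ F₁ ∧ ∀ (F : IntermediateField K (AlgebraicClosure K)) (_ : NumberField F),
            F₁ ≤ F → FixedBy τ F →
              ∃ k : ℕ, 0 < k ∧ PowerContinues (E.map (algebraMap K F)) k) ∧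
      ∀ (M : IntermediateField K (AlgebraicClosure K)) [FiniteDimensional K M] [IsGalois K M]
        (m : ℕ) (_ : 0 < m) (v : HeightOneSpectrum (𝓞 K))
        (F₁ : IntermediateField K (AlgebraicClosure K)) (_ : FiniteDimensional K F₁)
        (_ : FixedBy σ F₁),
        ∃ F₀ : IntermediateField K (AlgebraicClosure K), FiniteDimensional K F₀ ∧
          FixedBy σ F₀ ∧
          ∀ (F : IntermediateField K (AlgebraicClosure K)) [NumberField F], F₀ ≤ F →
            FixedBy σ F →
            relGal M F = Subgroup.zpowers (AlgEquiv.restrictNormalHom M σ) ∧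
            m ∣ Module.finrank ℚ F ∧
            (∀ u : HeightOneSpectrum (𝓞 K), m * nonsplit K M F u ≤ Module.finrank K F) ∧
            (∀ u : InfinitePlace K, m * nonsplitInf K M F u ≤ Module.finrank K F) ∧
            (∀ w : HeightOneSpectrum (𝓞 F), w.asIdeal.LiesOver v.asIdeal →
              ¬ SplitsAt K M F w → Over v₀ F₁ F w) ∧
            (∀ w : HeightOneSpectrum (𝓞 F),
              ¬ SemistableAt (E.map (algebraMap K F)) w → Over v₀ F₁ F w) ∧
            (∀ w : InfinitePlace F, w.IsReal → OverInf v₀ F₁ F w) := by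
  obtain ⟨σ, v₀, h1, h2, h3, h4, h5⟩ := MP_0d9be2.H39.cyclicMain E hE
  refine ⟨σ, v₀, h1, h2, h3, ?_, ?_⟩
  · intro τ hτ hne
    refine h4 τ hτ ?_
    unfold InClosure at hne
    push Not at hne
    exact hne
  · intro M hM1 hM2 m hm v F₁ hF₁ hF₁σ
    obtain ⟨F₀, hF₀, hF₀σ, hF⟩ := h5 M hM1 hM2 m v F₁ hF₁ hF₁σ
    refine ⟨F₀, hF₀, hF₀σ, fun F nf hle hFσ => ?_⟩
    obtain ⟨a1, a2, a3, a4, a5, a6, a7⟩ := hF F nf hle hFσ
    refine ⟨a1, a2 hm, fun u => ?_, a4, fun w hw hs => over_of_below (a5 w hw hs),
      fun w hw => over_of_below (a6 w hw), fun w hw => overInf_of_below (a7 w hw)⟩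
    rw [nonsplit_eq]
    exact a3 u

end Pool.Agent.Results.MP_0d9be2_nt.OneAutomorphism
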