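import Pool.Agent.Lib.MP_0d9be2_nt.H39.Global
import Pool.Agent.Lib.MP_0d9be2_nt.H15.SameJ

/-!
Meromorphic continuation of the L-series of all elliptic curves with a given j-invariant is reduced
to that of one curve with this j-invariant over number fields with small mod N image.
-/

set_option autoImplicit false

namespace Pool.Agent.Results.MP_0d9be2_nt.OneCurveReduction

open Pool.Agent.MP_0d9be2

/-- `E` is an elliptic curve over the number field `K`, `j` its `j`-invariant, `j ≠ 0, 1728`, `M₀`
is a finite extension of `K` and `N, n ≥ 1`. If the `L`-series of the one curve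
`E_j : y² + (j - 1728) x y = x³ - 36 (j - 1728)³ x - (j - 1728)⁵` over `F` has a meromorphic
continuation for all finite extensions `F` of `K` such that, for some prime `p` and some finite
extension `M` of `F`, Galois over `K` and containing `M₀`, the group of `M/F` is
`p`-hyper-elementary, the `N`-torsion of `E_j` is rational over `M` and `n` divides `p ^ k * [F : ℚ]`
for some `k`, then the `L`-series of `E` has a meromorphic continuation. -/
theorem result (K : Type) [Field K] [NumberField K] (E : WeierstrassCurve K) [E.IsElliptic]
    (h0 : E.j ≠ 0) (h1 : E.j ≠ 1728) (M₀ : Type) [Field M₀] [NumberField M₀] [Algebra K M₀]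
    (N n : ℕ) (hN : 0 < N) (hn : 0 < n)
    (H : ∀ (F : Type) [Field F] [NumberField F] [Algebra K F],
      SmallImage K M₀ N n F (WeierstrassCurve.ofJNe0Or1728 (algebraMap K F E.j)) →
        Continues (WeierstrassCurve.ofJNe0Or1728 (algebraMap K F E.j))) :
    Continues E :=
  H39.reduction H15.sameJ K E h0 h1 M₀ N n hN hn H

end Pool.Agent.Results.MP_0d9be2_nt.OneCurveReduction
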