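import Pool.Agent.Lib.MP_0d9be2_nt.H83.Dich
import Pool.Agent.Lib.MP_0d9be2_nt.H83.TwistMax
import Pool.Agent.Lib.MP_0d9be2_nt.H83.Branch

/-!
If `L(E/K, s)` has no meromorphic continuation, then either this is due to ONE automorphism of the
algebraic closure, or to branch points of prime order.
-/

namespace Pool.Agent.Results.MP_0d9be2_nt.OrderP

open scoped NumberField
open IsDedekindDomain NumberField

/-! ### The `L`-series -/

section lseries

variable {K : Type} [Field K] [NumberField K]

/-- The number of affine points of the reduction of `W` modulo the prime `v`. -/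
noncomputable def affPts (W : WeierstrassCurve (𝓞 K)) (v : HeightOneSpectrum (𝓞 K)) : ℕ :=
  Nat.card {xy : (𝓞 K ⧸ v.asIdeal) × (𝓞 K ⧸ v.asIdeal) //
    (W.map (Ideal.Quotient.mk v.asIdeal)).toAffine.Equation xy.1 xy.2}

open Classical in
/-- The Euler factor of the integral Weierstrass equation `W` at the prime `v`. -/
noncomputable def factor (W : WeierstrassCurve (𝓞 K)) (v : HeightOneSpectrum (𝓞 K)) (s : ℂ) : ℂ :=
  (1 - ((Ideal.absNorm v.asIdeal : ℂ) - (affPts W v : ℂ)) * (Ideal.absNorm v.asIdeal : ℂ) ^ (-s)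
    + (if W.Δ ∈ v.asIdeal then 0 else (Ideal.absNorm v.asIdeal : ℂ))
      * (Ideal.absNorm v.asIdeal : ℂ) ^ (-2 * s))⁻¹

/-- `W` is an integral Weierstrass model of `E`. -/
def IsModel (E : WeierstrassCurve K) (W : WeierstrassCurve (𝓞 K)) : Prop :=
  ∃ C : WeierstrassCurve.VariableChange K, C • W.map (algebraMap (𝓞 K) K) = E

/-- `W` is an integral Weierstrass model of `E` which is minimal at `v`. -/
def IsMinimalAt (E : WeierstrassCurve K) (W : WeierstrassCurve (𝓞 K))
    (v : HeightOneSpectrum (𝓞 K)) : Prop :=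
  IsModel E W ∧ ∀ W' : WeierstrassCurve (𝓞 K), IsModel E W' →
    ∀ n : ℕ, W.Δ ∈ v.asIdeal ^ n → W'.Δ ∈ v.asIdeal ^ n

/-- The `k`-th power of `L(E/K, s)`, the Euler product for `Re s > 2`, has a meromorphic
continuation to `ℂ`. -/
def PowerContinues (E : WeierstrassCurve K) (k : ℕ) : Prop :=
  ∀ W : HeightOneSpectrum (𝓞 K) → WeierstrassCurve (𝓞 K), (∀ v, IsMinimalAt E (W v) v) →
    ∃ f : ℂ → ℂ, MeromorphicOn f Set.univ ∧
      ∀ s : ℂ, 2 < s.re → f s = (∏' v : HeightOneSpectrum (𝓞 K), factor (W v) v s) ^ k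

/-- `E` is `p`-bad: no `L(E/K, s)^k` with `k` prime to `p` has a meromorphic continuation. -/
def Bad (p : ℕ) (E : WeierstrassCurve K) : Prop := ∀ k : ℕ, ¬ p ∣ k → ¬ PowerContinues E k

/-- For some `k` prime to `p` the power `L(E/K, s)^(p k)` has a meromorphic continuation with a
zero or pole of order prime to `p` (so that its `p`-th root `L(E/K, s)^k` has a branch point of
order `p` there). -/
def BranchPoint (p : ℕ) (E : WeierstrassCurve K) : Prop :=
  ∃ k : ℕ, ¬ p ∣ k ∧ ∀ W : HeightOneSpectrum (𝓞 K) → WeierstrassCurve (𝓞 K),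
    (∀ v, IsMinimalAt E (W v) v) →
    ∃ f : ℂ → ℂ, MeromorphicOn f Set.univ ∧
      (∀ s : ℂ, 2 < s.re → f s = (∏' v : HeightOneSpectrum (𝓞 K), factor (W v) v s) ^ (p * k)) ∧
      ∃ (z : ℂ) (n : ℤ), meromorphicOrderAt f z = n ∧ ¬ (p : ℤ) ∣ n

end lseries

/-- `E'` is the quadratic twist of `E` by `d`, up to changes of variables over `K`. -/
def IsTwist {K : Type} [Field K] (d : K) (E E' : WeierstrassCurve K) : Prop :=
  ∃ (A B : K) (C C' : WeierstrassCurve.VariableChange K),
    C • E = ⟨0, 0, 0, A, B⟩ ∧ C' • E' = ⟨0, 0, 0, d ^ 2 * A, d ^ 3 * B⟩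

/-- `G` has a normal cyclic subgroup of order prime to `p` whose index is a power of `p`. -/
def IsPHyper (p : ℕ) (G : Type) [Group G] : Prop :=
  ∃ C : Subgroup G, C.Normal ∧ IsCyclic C ∧ ¬ p ∣ Nat.card C ∧ ∃ k : ℕ, C.index = p ^ k

/-- `Gal(M X / X)`, as the group of the restrictions to `M` of the automorphisms of the algebraic
closure of `K` which fix `X`. -/
noncomputable def relGal {K : Type} [Field K] (M X : IntermediateField K (AlgebraicClosure K))
    [Normal K M] : Subgroup Gal(M/K) :=
  X.fixingSubgroup.map (AlgEquiv.restrictNormalHom M)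

/-- Let `E` be an elliptic curve over a number field `K` such that `L(E/K, s)` has no meromorphic
continuation. Then there are a prime `p` and a subfield `X` of the algebraic closure of `K`,
containing `K`, such that

* every number field in `X` is contained in a number field in `X` over which `E` is `p`-bad;
* (maximality) every field `Y` strictly larger than `X` contains a number field `F₁` such that `E`
  is not `p`-bad over any number field between `F₁` and `Y`;
* the absolute Galois group of `X` is pro-`p`-hyperelementary;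
* either `X` is the field fixed by one automorphism of the algebraic closure, or for all
  sufficiently large number fields `F` in `X` over which `E` is `p`-bad, for some `k` prime to `p`
  the power `L(E/F, s)^(p k)` has a meromorphic continuation with a zero or pole of order prime to
  `p`, that is, a branch point of order `p` of its `p`-th root `L(E/F, s)^k`;
* for every `a ≠ 0`, for all sufficiently large number fields `F` in `X` with `a ∈ F`, the
  quadratic twist of `E` by `a` is `p`-bad over `F` if and only if `E` is. -/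
theorem result (K : Type) [Field K] [NumberField K] (E : WeierstrassCurve K) [E.IsElliptic]
    (hE : ¬ PowerContinues E 1) :
    ∃ (p : ℕ) (X : IntermediateField K (AlgebraicClosure K)), p.Prime ∧
      (∀ F : IntermediateField K (AlgebraicClosure K), FiniteDimensional K F → F ≤ X →
        ∃ (F' : IntermediateField K (AlgebraicClosure K)) (_ : NumberField F'),
          F ≤ F' ∧ F' ≤ X ∧ Bad p (E.map (algebraMap K F'))) ∧
      (∀ Y : IntermediateField K (AlgebraicClosure K), X < Y →
        ∃ F₁ : IntermediateField K (AlgebraicClosure K), FiniteDimensional K F₁ ∧ F₁ ≤ Y ∧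
          ∀ (F : IntermediateField K (AlgebraicClosure K)) [NumberField F], F₁ ≤ F → F ≤ Y →
            ¬ Bad p (E.map (algebraMap K F))) ∧
      (∀ (M : IntermediateField K (AlgebraicClosure K)) [FiniteDimensional K M] [IsGalois K M],
        IsPHyper p (relGal M X)) ∧
      ((∃ σ : Gal(AlgebraicClosure K/K), ∀ x, σ x = x ↔ x ∈ X) ∨
        ∃ F₁ : IntermediateField K (AlgebraicClosure K), FiniteDimensional K F₁ ∧ F₁ ≤ X ∧
          ∀ (F : IntermediateField K (AlgebraicClosure K)) [NumberField F], F₁ ≤ F → F ≤ X →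
            Bad p (E.map (algebraMap K F)) → BranchPoint p (E.map (algebraMap K F))) ∧
      (∀ a : AlgebraicClosure K, a ≠ 0 →
        ∃ F₁ : IntermediateField K (AlgebraicClosure K), FiniteDimensional K F₁ ∧ F₁ ≤ X ∧
          ∀ (F : IntermediateField K (AlgebraicClosure K)) [NumberField F], F₁ ≤ F → F ≤ X →
            ∀ (haF : a ∈ F) (E' : WeierstrassCurve F) [E'.IsElliptic],
              IsTwist (⟨a, haF⟩ : F) (E.map (algebraMap K F)) E' →
                (Bad p (E.map (algebraMap K F)) ↔ Bad p E')) := by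
  obtain ⟨p, hp, hbad⟩ := MP_0d9be2.H63.exists_bad (E := E)
    (fun hc => hE ((MP_0d9be2.H15.continues_iff_power E).1 hc))
  have hSmul : ∀ a ∈ {k : ℕ | ¬ p ∣ k}, ∀ b ∈ {k : ℕ | ¬ p ∣ k}, a * b ∈ {k : ℕ | ¬ p ∣ k} := by
    intro a ha b hb h
    rcases (Nat.Prime.dvd_mul hp).1 h with h | h
    · exact ha h
    · exact hb h
  have h0 : MP_0d9be2.H83.PBS {k : ℕ | ¬ p ∣ k} E
      (⊥ : IntermediateField K (AlgebraicClosure K)) := by
    intro F _ hF
    exact ⟨⊥, hF, le_rfl, MP_0d9be2.H63.badAt_bot (fun k hk => hbad k hk)⟩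
  obtain ⟨X, -, hX, hmax⟩ := MP_0d9be2.H83.exists_maxS {k : ℕ | ¬ p ∣ k} E ⊥ h0
  refine ⟨p, X, hp, ?_, ?_, ?_, ?_, ?_⟩
  · intro F hF hFX
    obtain ⟨F', h1, h2, nf, h3⟩ := hX F hF hFX
    exact ⟨F', nf, h1, h2, h3⟩
  · intro Y hXY
    have h1 : ¬ MP_0d9be2.H83.PBS {k : ℕ | ¬ p ∣ k} E Y := fun h =>
      absurd (hmax Y hXY.le h) (not_le_of_gt hXY)
    unfold MP_0d9be2.H83.PBS at h1
    push Not at h1
    obtain ⟨F₁, h2, h3, h4⟩ := h1
    exact ⟨F₁, h2, h3, fun F nf hF hFY hb => h4 F hF hFY ⟨nf, hb⟩⟩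
  · intro M _ _
    exact MP_0d9be2.H83.hyper_max hp hSmul (fun k hk => hk) hX hmax M
  · rcases MP_0d9be2.H83.dich hp hSmul (fun k hk => hk) hX hmax with h | ⟨F₁, h1, h2, h3⟩
    · exact Or.inl h
    · refine Or.inr ⟨F₁, h1, h2, fun F nf hF hFX hb => ?_⟩
      obtain ⟨k, hk, hkc⟩ := h3 F hF hFX
      exact ⟨k, hk, MP_0d9be2.H83.branch (E.map (algebraMap K F)) hp.pos hkc (hb k hk)⟩
  · intro a ha
    exact MP_0d9be2.H83.twist_max hSmul hmax a ha

end Pool.Agent.Results.MP_0d9be2_nt.OrderP
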