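import Pool.Agent.Lib.MP_0d9be2_nt.H63.All

/-!
Towers of number fields over which the continuation of `L(E, s)` fails, with `p`-hyperelementary
Galois groups, almost all places split, and a local-global alternative.
-/

namespace Pool.Agent.Results.MP_0d9be2_nt.Towers

open scoped NumberField
open IsDedekindDomain NumberField

/-! ### The `L`-series -/

section lseries

variable {K : Type} [Field K] [NumberField K]

/-- The number of affine points of the reduction of `W` modulo the prime `v`. -/
noncomputable def affPts (W : WeierstrassCurve (𝓞 K)) (v : HeightOneSpectrum (𝓞 K)) : ℕ :=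
  Nat.card {xy : (𝓞 K ⧸ v.asIdeal) × (𝓞 K ⧸ v.asIdeal) //
    (W.map (Ideal.Quotient.mk v.asIdeal)).toAffine.Equation xy.1 xy.2}

open Classical in
/-- The Euler factor of the integral Weierstrass equation `W` at the prime `v`. -/
noncomputable def factor (W : WeierstrassCurve (𝓞 K)) (v : HeightOneSpectrum (𝓞 K)) (s : ℂ) : ℂ :=
  (1 - ((Ideal.absNorm v.asIdeal : ℂ) - (affPts W v : ℂ)) * (Ideal.absNorm v.asIdeal : ℂ) ^ (-s)
    + (if W.Δ ∈ v.asIdeal then 0 else (Ideal.absNorm v.asIdeal : ℂ))
      * (Ideal.absNorm v.asIdeal : ℂ) ^ (-2 * s))⁻¹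

/-- `W` is an integral Weierstrass model of `E`. -/
def IsModel (E : WeierstrassCurve K) (W : WeierstrassCurve (𝓞 K)) : Prop :=
  ∃ C : WeierstrassCurve.VariableChange K, C • W.map (algebraMap (𝓞 K) K) = E

/-- `W` is an integral Weierstrass model of `E` which is minimal at `v`. -/
def IsMinimalAt (E : WeierstrassCurve K) (W : WeierstrassCurve (𝓞 K))
    (v : HeightOneSpectrum (𝓞 K)) : Prop :=
  IsModel E W ∧ ∀ W' : WeierstrassCurve (𝓞 K), IsModel E W' →
    ∀ n : ℕ, W.Δ ∈ v.asIdeal ^ n → W'.Δ ∈ v.asIdeal ^ n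

/-- The `k`-th power of `L(E/K, s)`, the Euler product for `Re s > 2`, has a meromorphic
continuation to `ℂ`. -/
def PowerContinues (E : WeierstrassCurve K) (k : ℕ) : Prop :=
  ∀ W : HeightOneSpectrum (𝓞 K) → WeierstrassCurve (𝓞 K), (∀ v, IsMinimalAt E (W v) v) →
    ∃ f : ℂ → ℂ, MeromorphicOn f Set.univ ∧
      ∀ s : ℂ, 2 < s.re → f s = (∏' v : HeightOneSpectrum (𝓞 K), factor (W v) v s) ^ k

/-- `E` has good or multiplicative reduction at `v`: there is an integral model whose discriminant
or whose `c₄` is a unit at `v`. -/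
def SemistableAt (E : WeierstrassCurve K) (v : HeightOneSpectrum (𝓞 K)) : Prop :=
  ∃ W : WeierstrassCurve (𝓞 K), IsModel E W ∧ (W.Δ ∉ v.asIdeal ∨ W.c₄ ∉ v.asIdeal)

end lseries

/-! ### Places that do not split -/

section split

/-- `L` is a compositum of the extensions `F` and `M` of `K`. -/
def IsCompositum (K M F L : Type) [Field K] [Field M] [Field F] [Field L] [Algebra K M]
    [Algebra K F] [Algebra K L] [Algebra M L] [Algebra F L] : Prop :=
  IsScalarTower K M L ∧ IsScalarTower K F L ∧ Algebra.adjoin F (Set.range (algebraMap M L)) = ⊤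

/-- The finite place `w` of `F` splits completely in the compositum `F M`. -/
def SplitsAt (K M F : Type) [Field K] [Field M] [Field F] [Algebra K M] [Algebra K F]
    (w : HeightOneSpectrum (𝓞 F)) : Prop :=
  ∀ (L : Type) [Field L] [NumberField L] [Algebra K L] [Algebra M L] [Algebra F L],
    IsCompositum K M F L → ∀ W : HeightOneSpectrum (𝓞 L), W.asIdeal.LiesOver w.asIdeal →
      W.asIdeal.ramificationIdx (𝓞 F) = 1 ∧ W.asIdeal.inertiaDeg (𝓞 F) = 1

/-- The infinite place `w` of `F` splits completely in the compositum `F M`. -/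
def SplitsAtInf (K M F : Type) [Field K] [Field M] [Field F] [Algebra K M] [Algebra K F]
    (w : InfinitePlace F) : Prop :=
  ∀ (L : Type) [Field L] [NumberField L] [Algebra K L] [Algebra M L] [Algebra F L],
    IsCompositum K M F L → ∀ W : InfinitePlace L, W.comap (algebraMap F L) = w →
      W.IsUnramified F

/-- The total local degree of the places of `F` over the finite place `v` of `K` that do not split
completely in `F M`. -/
noncomputable def nonsplit (K M F : Type) [Field K] [NumberField K] [Field M] [Field F]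
    [NumberField F] [Algebra K M] [Algebra K F] (v : HeightOneSpectrum (𝓞 K)) : ℕ :=
  ∑ᶠ w : {w : HeightOneSpectrum (𝓞 F) // w.asIdeal.LiesOver v.asIdeal ∧ ¬ SplitsAt K M F w},
    w.1.asIdeal.ramificationIdx (𝓞 K) * w.1.asIdeal.inertiaDeg (𝓞 K)

/-- The number of the places of `F` over the infinite place `v` of `K` that do not split
completely in `F M` (they are real). -/
noncomputable def nonsplitInf (K M F : Type) [Field K] [Field M] [Field F]
    [Algebra K M] [Algebra K F] (v : InfinitePlace K) : ℕ :=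
  Nat.card {w : InfinitePlace F // w.comap (algebraMap K F) = v ∧ ¬ SplitsAtInf K M F w}

end split

/-! ### Groups -/

/-- `G` has a normal cyclic subgroup of order prime to `p` whose index is a power of `p`. -/
def IsPHyper (p : ℕ) (G : Type) [Group G] : Prop :=
  ∃ C : Subgroup G, C.Normal ∧ IsCyclic C ∧ ¬ p ∣ Nat.card C ∧ ∃ k : ℕ, C.index = p ^ k

section groups

variable {K : Type} [Field K]

/-- `Gal(M F / F)`, as the group of the restrictions to `M` of the automorphisms of the algebraic
closure of `K` which fix `F`. -/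
noncomputable def relGal (M F : IntermediateField K (AlgebraicClosure K)) [Normal K M] : Subgroup Gal(M/K) :=
  F.fixingSubgroup.map (AlgEquiv.restrictNormalHom M)

/-- The automorphisms of the algebraic closure of `K` over the union of the fields `F n`. -/
noncomputable def GalUnion (F : ℕ → IntermediateField K (AlgebraicClosure K)) :
    Subgroup Gal(AlgebraicClosure K/K) :=
  ⨅ n, (F n).fixingSubgroup

/-- `σ` lies in the decomposition group of the absolute value `v`. -/
def Fixes (v : AbsoluteValue (AlgebraicClosure K) ℝ) (σ : Gal(AlgebraicClosure K/K)) : Prop :=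
  ∀ x, v (σ x) = v x

/-- The prime `w` of `F'` lies over the prime `u` of the subfield `F`. -/
def Over (F F' : IntermediateField K (AlgebraicClosure K)) (u : HeightOneSpectrum (𝓞 F))
    (w : HeightOneSpectrum (𝓞 F')) : Prop :=
  ∀ (x : 𝓞 F) (y : 𝓞 F'), ((y : F') : AlgebraicClosure K) = (x : F) →
    (y ∈ w.asIdeal ↔ x ∈ u.asIdeal)

end groups

theorem nonsplit_eq (K M F : Type) [Field K] [NumberField K] [Field M] [Field F]
    [NumberField F] [Algebra K M] [Algebra K F] (v : HeightOneSpectrum (𝓞 K)) :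
    nonsplit K M F v = MP_0d9be2.badDeg K M F v := by
  classical
  unfold nonsplit MP_0d9be2.badDeg
  have h1 := finsum_mem_coe_finset
    (fun w : HeightOneSpectrum (𝓞 F) =>
      w.asIdeal.ramificationIdx (𝓞 K) * w.asIdeal.inertiaDeg (𝓞 K))
    ((MP_0d9be2.H15.fib F v).filter (fun w => ¬ MP_0d9be2.SplitsAt K M F w))
  have h2 : ((MP_0d9be2.H15.fib F v).filter (fun w => ¬ MP_0d9be2.SplitsAt K M F w) :
      Set (HeightOneSpectrum (𝓞 F))) =
      {w | w.asIdeal.LiesOver v.asIdeal ∧ ¬ SplitsAt K M F w} := by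
    ext w
    rw [Finset.coe_filter]
    change w ∈ MP_0d9be2.H15.fib F v ∧ _ ↔ _
    rw [MP_0d9be2.H15.mem_fib]
    rfl
  rw [h2] at h1
  exact (finsum_set_coe_eq_finsum_mem
    (f := fun w : HeightOneSpectrum (𝓞 F) =>
      w.asIdeal.ramificationIdx (𝓞 K) * w.asIdeal.inertiaDeg (𝓞 K))
    {w | w.asIdeal.LiesOver v.asIdeal ∧ ¬ SplitsAt K M F w}).trans h1

/-- Let `E` be an elliptic curve over a number field `K`. If `L(E/K, s)` has no meromorphic
continuation, there is a prime `p` such that no power `L(E/K, s)^k` with `p ∤ k` has one.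

Let `p` be a prime and `S` a set of exponents which is closed under products and contains all `k`
prime to `p` (for example all `k` prime to `p`, or all `k ≥ 1`), such that no `L(E/K, s)^k` with
`k ∈ S` has a meromorphic continuation. Let `M₀/K` be finite Galois. Then there are number fields
`K ≤ F 0 ≤ F 1 ≤ …` in the algebraic closure of `K`, with union `K_∞`, such that

* no `L(E/F n, s)^k` with `k ∈ S` has a meromorphic continuation;
* all the groups `Gal(M₀ F n / F n)` are `p`-hyperelementary;
* for every finite Galois extension `M/K` and every `m`, for all large `n`, `Gal(M F n / F n)` is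
  `p`-hyperelementary, and for every place `v` of `K` the places of `F n` over `v` that do not
  split completely in `M F n` have total local degree at most `[F n : K] / m`;
* either for every absolute value of the algebraic closure its decomposition group over `K_∞` is a
  pro-`p` group, and then `F n` is totally complex for all large `n` if `p ≠ 2` and `E` is
  semistable over `F n` for all large `n` if `p ≥ 5`;
* or there is one absolute value which is fixed by `Gal(K̄/K_∞)`, all the decomposition groups over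
  `K_∞` of the absolute values that are not equivalent to it are trivial, and for every `m` there
  is one prime of `F m` over which lie all the primes of `F n` at which `E` is not semistable, for
  all large `n`. -/
theorem result (K : Type) [Field K] [NumberField K] (E : WeierstrassCurve K) [E.IsElliptic] :
    (¬ PowerContinues E 1 → ∃ p : ℕ, p.Prime ∧ ∀ k : ℕ, ¬ p ∣ k → ¬ PowerContinues E k) ∧
    ∀ (p : ℕ) (_ : p.Prime) (S : Set ℕ) (_ : ∀ a ∈ S, ∀ b ∈ S, a * b ∈ S)
      (_ : ∀ k : ℕ, ¬ p ∣ k → k ∈ S) (_ : ∀ k ∈ S, ¬ PowerContinues E k)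
      (M₀ : IntermediateField K (AlgebraicClosure K)) [FiniteDimensional K M₀] [IsGalois K M₀],
    ∃ (F : ℕ → IntermediateField K (AlgebraicClosure K)) (_ : ∀ n, NumberField (F n)),
      Monotone F ∧
      (∀ n, ∀ k ∈ S, ¬ PowerContinues (E.map (algebraMap K (F n))) k) ∧
      (∀ n, IsPHyper p (relGal M₀ (F n))) ∧
      (∀ (M : IntermediateField K (AlgebraicClosure K)) [FiniteDimensional K M] [IsGalois K M]
        (m : ℕ), ∃ n₀ : ℕ, ∀ n, n₀ ≤ n → IsPHyper p (relGal M (F n)) ∧
          (∀ v : HeightOneSpectrum (𝓞 K), m * nonsplit K M (F n) v ≤ Module.finrank K (F n)) ∧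
          (∀ v : InfinitePlace K, m * nonsplitInf K M (F n) v ≤ Module.finrank K (F n))) ∧
      (((∀ v : AbsoluteValue (AlgebraicClosure K) ℝ, v.IsNontrivial →
            ∀ σ ∈ GalUnion F, Fixes v σ → ∀ x, ∃ j : ℕ, (σ ^ p ^ j) x = x) ∧
          (p ≠ 2 → ∃ n₀ : ℕ, ∀ n, n₀ ≤ n → ∀ w : InfinitePlace (F n), w.IsComplex) ∧
          (5 ≤ p → ∃ n₀ : ℕ, ∀ n, n₀ ≤ n → ∀ w : HeightOneSpectrum (𝓞 (F n)),
            SemistableAt (E.map (algebraMap K (F n))) w)) ∨
        ∃ v : AbsoluteValue (AlgebraicClosure K) ℝ, v.IsNontrivial ∧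
          (∀ σ ∈ GalUnion F, Fixes v σ) ∧
          (∀ w : AbsoluteValue (AlgebraicClosure K) ℝ, w.IsNontrivial → ¬ v.IsEquiv w →
            ∀ σ ∈ GalUnion F, Fixes w σ → σ = 1) ∧
          ∀ m : ℕ, ∃ (u : HeightOneSpectrum (𝓞 (F m))) (n₀ : ℕ), ∀ n, n₀ ≤ n →
            ∀ w : HeightOneSpectrum (𝓞 (F n)), ¬ SemistableAt (E.map (algebraMap K (F n))) w →
              Over (F m) (F n) u w) := by
  refine ⟨fun h => ?_, ?_⟩
  · exact MP_0d9be2.H63.exists_bad (E := E)
      (fun hc => h ((MP_0d9be2.H15.continues_iff_power E).1 hc))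
  · intro p hp S hSmul hSp hbad M₀ _ _
    obtain ⟨F, nf, hmono, hb, hh0, hsh, hloc⟩ := MP_0d9be2.H63.final MP_0d9be2.H15.shareTower
      MP_0d9be2.H15.shareIso MP_0d9be2.H15.shareMono MP_0d9be2.H63.second_S hp S hSmul hSp E hbad M₀
    refine ⟨F, nf, hmono, hb, hh0, ?_, ?_⟩
    · intro M hM1 hM2 m
      obtain ⟨n₀, hn₀⟩ := hsh M hM1 hM2 m
      refine ⟨n₀, fun n hn => ?_⟩
      obtain ⟨h1, h2, h3⟩ := hn₀ n hn
      refine ⟨h1, fun v => ?_, h3⟩
      rw [nonsplit_eq]
      exact h2 v
    · have hmem : ∀ σ : Gal(AlgebraicClosure K/K), σ ∈ GalUnion F ↔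
          ∀ n, σ ∈ (F n).fixingSubgroup := fun σ => Subgroup.mem_iInf
      rcases hloc with ⟨h1, h2, h3⟩ | ⟨v, hv, h1, h2, h3⟩
      · left
        exact ⟨fun v hv σ hσ hσv => h1 v hv σ ((hmem σ).1 hσ) hσv, h2, h3⟩
      · right
        refine ⟨v, hv, fun σ hσ => h1 σ ((hmem σ).1 hσ),
          fun w hw hne σ hσ hσw => h2 w hw hne σ ((hmem σ).1 hσ) hσw, fun m => ?_⟩
        obtain ⟨u, n₀, hn₀⟩ := h3 m
        exact ⟨u, n₀, fun n hn w hw x y hyx => hn₀ n hn w hw y x hyx⟩

end Pool.Agent.Results.MP_0d9be2_nt.Towers
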